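import Pool.Agent.H75C.HY.Stm

/-!
# PART B of the project for MP_bba6cc_lc: finding the arguments of a connective
-/

set_option autoImplicit false

namespace Pool.Agent.Helper76.HYB

open Pool.Agent.NPC Pool.Agent.H623R2.PS Pool.Agent.H75C.HY

/-- One step of the scan for the mark `(4, i - 1)` at level `0`; the level is a list of units, behind
the mark everything is collected in reverse. -/
def stp (i : ℕ) (s : List Unit × Option (List Tok)) (t : Tok) : List Unit × Option (List Tok) :=
  match s.2 with
  | none =>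
    if (t.1 = 4 ∧ t.2 + 1 = i) ∧ s.1 = [] then ([], some [])
    else if t.1 = 5 then (s.1.tail, none)
    else if t.1 = 3 ∨ t.1 = 6 ∨ t.1 = 7 then (() :: s.1, none)
    else (s.1, none)
  | some acc => (s.1, some (t :: acc))

/-- The scan. -/
def scn (i : ℕ) (l : List Tok) : Option (List Tok) := (l.foldl (stp i) ([], none)).2

/-- The word that starts at the argument number `i`. -/
def argAt (w : List Tok) (i : ℕ) : List Tok :=
  if i = 0 then w.tail else ((scn i w.tail).getD []).reverse

theorem stp_some (i : ℕ) (l : List Tok) (u : List Unit) (acc : List Tok) :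
    l.foldl (stp i) (u, some acc) = (u, some (l.reverse ++ acc)) := by
  induction l generalizing acc with
  | nil => rfl
  | cons t l ih =>
    rw [List.foldl_cons]
    change l.foldl (stp i) (u, some (t :: acc)) = _
    rw [ih, List.reverse_cons, List.append_assoc]
    rfl

theorem foldl_flatten_fix {α β : Type} (f : α → β → α) (s : α) (L : List (List β))
    (h : ∀ u ∈ L, u.foldl f s = s) : L.flatten.foldl f s = s := by
  induction L with
  | nil => rfl
  | cons u L ih =>
    rw [List.flatten_cons, List.foldl_append, h u List.mem_cons_self]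
    exact ih fun v hv => h v (List.mem_cons_of_mem _ hv)

variable {𝔅 : Base}

/-- scanning the word of a formula does not change the state -/
theorem scan_pr (i : ℕ) (ψ : Form 𝔅) (u : List Unit) :
    (pr ψ).foldl (stp i) (u, none) = (u, none) := by
  induction ψ generalizing u with
  | prop n => simp [pr, stp]
  | nom n => simp [pr, stp]
  | var n => simp [pr, stp]
  | app b φ ih =>
    rw [pr, List.foldl_cons, List.foldl_append]
    have h1 : stp i (u, none) (3, 𝔅.idx b) = (() :: u, none) := by simp [stp]
    rw [h1, foldl_flatten_fix]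
    · simp [stp]
    · intro v hv
      rw [List.mem_ofFn] at hv
      obtain ⟨j, rfl⟩ := hv
      rw [List.foldl_append, ih j]
      simp [stp]
  | dia φ ih =>
    rw [pr, List.foldl_cons, List.foldl_append]
    have h1 : stp i (u, none) (6, 0) = (() :: u, none) := by simp [stp]
    rw [h1, ih]
    simp [stp]
  | box φ ih =>
    rw [pr, List.foldl_cons, List.foldl_append]
    have h1 : stp i (u, none) (7, 0) = (() :: u, none) := by simp [stp]
    rw [h1, ih]
    simp [stp]
  | bind n φ ih =>
    rw [pr, List.foldl_cons]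
    have h1 : stp i (u, none) (8, n) = (u, none) := by simp [stp]
    rw [h1, ih]
  | atNom n φ ih =>
    rw [pr, List.foldl_cons]
    have h1 : stp i (u, none) (9, n) = (u, none) := by simp [stp]
    rw [h1, ih]
  | atVar n φ ih =>
    rw [pr, List.foldl_cons]
    have h1 : stp i (u, none) (10, n) = (u, none) := by simp [stp]
    rw [h1, ih]

theorem argAt_spec (b : 𝔅.B) (φ : Fin (𝔅.ar b) → Form 𝔅) (rest : List Tok) (i : Fin (𝔅.ar b)) :
    ∃ rest' : List Tok, argAt (pr (.app b φ) ++ rest) (i : ℕ) = pr (φ i) ++ rest' := by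
  obtain ⟨L, hL⟩ : ∃ L : List (List Tok),
      L = List.ofFn (fun i : Fin (𝔅.ar b) => pr (φ i) ++ [((4, (i : ℕ)) : Tok)]) := ⟨_, rfl⟩
  have hlen : L.length = 𝔅.ar b := by rw [hL, List.length_ofFn]
  have htail : (pr (.app b φ) ++ rest).tail = L.flatten ++ ((5, 0) :: rest) := by
    rw [pr, ← hL, List.cons_append, List.tail_cons, List.append_assoc]
    rfl
  have hget : ∀ (j : ℕ) (hj : j < 𝔅.ar b), L[j]'(by omega) = pr (φ ⟨j, hj⟩) ++ [(4, j)] := by
    intro j hj
    subst hL
    rw [List.getElem_ofFn]
  unfold argAt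
  rw [htail]
  rcases Nat.eq_zero_or_pos (i : ℕ) with h0 | h0
  · rw [if_pos h0]
    have hk : 0 < 𝔅.ar b := lt_of_le_of_lt (Nat.zero_le _) i.2
    have hi : i = ⟨0, hk⟩ := Fin.ext h0
    have h1 : L = L[0]'(by omega) :: L.drop 1 := by
      conv_lhs => rw [← List.drop_zero (l := L)]
      rw [List.drop_eq_getElem_cons (by omega)]
    rw [h1, hget 0 hk, hi, List.flatten_cons]
    exact ⟨_, by rw [List.append_assoc, List.append_assoc]⟩
  · rw [if_neg h0.ne']
    obtain ⟨j, hj⟩ : ∃ j, (i : ℕ) = j + 1 := ⟨(i : ℕ) - 1, by omega⟩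
    have hi2 : j + 1 < 𝔅.ar b := by rw [← hj]; exact i.2
    have hi : i = ⟨j + 1, hi2⟩ := Fin.ext hj
    have h1 : L = L.take j ++ (L[j]'(by omega) :: (L[j + 1]'(by omega) :: L.drop (j + 2))) := by
      conv_lhs => rw [← List.take_append_drop j L]
      rw [List.drop_eq_getElem_cons (by omega), List.drop_eq_getElem_cons (i := j + 1) (by omega)]
    obtain ⟨M, hM⟩ : ∃ M, M = L.drop (j + 2) := ⟨_, rfl⟩
    rw [← hM] at h1
    have h2 : (L.take j).flatten.foldl (stp (i : ℕ)) ([], none) = ([], none) := by
      apply foldl_flatten_fix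
      intro v hv
      rw [List.mem_take_iff_getElem] at hv
      obtain ⟨m, hm, rfl⟩ := hv
      rw [hget m (by omega), List.foldl_append, scan_pr]
      have hmj : m ≠ j := by omega
      simp [stp, hj, hmj]
    have h3 : scn (i : ℕ) (L.flatten ++ ((5, 0) :: rest)) =
        some ((pr (φ i) ++ ([(4, j + 1)] ++ (M.flatten ++
          ((5, 0) :: rest)))).reverse ++ []) := by
      unfold scn
      rw [h1, List.flatten_append, List.flatten_cons, List.flatten_cons, hget j (by omega),
        hget (j + 1) hi2, ← hi]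
      simp only [List.append_assoc, List.foldl_append]
      rw [h2, scan_pr]
      have h4 : [((4, j) : Tok)].foldl (stp (i : ℕ)) ([], none) = ([], some []) := by
        simp [stp, hj]
      rw [h4, ← List.foldl_append, ← List.foldl_append, ← List.foldl_append, stp_some]
    rw [h3]
    refine ⟨[(4, j + 1)] ++ (M.flatten ++ ((5, 0) :: rest)), ?_⟩
    rw [List.append_nil, Option.getD_some, List.reverse_reverse]

theorem sz_scn (i : ℕ) (l : List Tok) : ∀ (u : List Unit) (acc : List Tok),
    (l.foldl (stp i) (u, none)).2 = some acc → sz acc ≤ sz l := by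
  induction l with
  | nil => intro u acc h; simp at h
  | cons t l ih =>
    intro u acc h
    rw [List.foldl_cons] at h
    have key : stp i (u, none) t = ([], some []) ∨ ∃ v, stp i (u, none) t = (v, none) := by
      unfold stp
      dsimp only
      split_ifs
      · exact Or.inl rfl
      · exact Or.inr ⟨_, rfl⟩
      · exact Or.inr ⟨_, rfl⟩
      · exact Or.inr ⟨_, rfl⟩
    rcases key with hk | ⟨v, hk⟩
    · rw [hk, stp_some] at h
      simp only [List.append_nil, Option.some.injEq] at h
      rw [← h, sz_reverse, sz_list_cons]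
      omega
    · rw [hk] at h
      have := ih v acc h
      rw [sz_list_cons]
      omega

theorem sz_argAt (w : List Tok) (i : ℕ) : sz (argAt w i) ≤ sz w := by
  have ht : sz w.tail ≤ sz w := by
    cases w with
    | nil => simp
    | cons t w => simp; omega
  unfold argAt
  split_ifs
  · exact ht
  · rw [sz_reverse]
    cases h : scn i w.tail with
    | none =>
      have := sz_pos w
      simp
      omega
    | some acc =>
      rw [Option.getD_some]
      exact (sz_scn i _ _ _ h).trans ht

theorem sz_stp (i : ℕ) (s : List Unit × Option (List Tok)) (t : Tok) :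
    sz (stp i s t) ≤ sz s + sz t + 3 := by
  obtain ⟨u, o⟩ := s
  have h0 := sz_pos u
  cases o with
  | none =>
    unfold stp
    dsimp only
    split_ifs
    · simp
      omega
    · have : sz u.tail ≤ sz u := by
        cases u with
        | nil => simp
        | cons a u => simp; omega
      simp
      omega
    · simp
      omega
    · simp
      omega
  | some acc =>
    change sz (u, some (t :: acc)) ≤ _
    simp
    omega

theorem sz_foldl_stp (i : ℕ) (l : List Tok) (s : List Unit × Option (List Tok)) :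
    sz (l.foldl (stp i) s) ≤ sz s + 3 * sz l := by
  induction l generalizing s with
  | nil => simp
  | cons t l ih =>
    have h1 := ih (stp i s t)
    have h2 := sz_stp i s t
    rw [List.foldl_cons]
    simp only [sz_list_cons]
    omega

/-! ### Polynomial time -/

theorem poly_stp : Poly (fun p : (List Tok × ℕ) × (List Unit × Option (List Tok)) × Tok =>
    stp p.1.2 p.2.1 p.2.2) := by
  have hi : Poly (fun p : (List Tok × ℕ) × (List Unit × Option (List Tok)) × Tok => p.1.2) :=
    NPC.Poly.snd (NPC.Poly.fst NPC.Poly.id)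
  have hu : Poly (fun p : (List Tok × ℕ) × (List Unit × Option (List Tok)) × Tok => p.2.1.1) :=
    NPC.Poly.fst (NPC.Poly.fst (NPC.Poly.snd NPC.Poly.id))
  have ho : Poly (fun p : (List Tok × ℕ) × (List Unit × Option (List Tok)) × Tok => p.2.1.2) :=
    NPC.Poly.snd (NPC.Poly.fst (NPC.Poly.snd NPC.Poly.id))
  have ht : Poly (fun p : (List Tok × ℕ) × (List Unit × Option (List Tok)) × Tok => p.2.2) :=
    NPC.Poly.snd (NPC.Poly.snd NPC.Poly.id)
  have hk := NPC.Poly.fst ht
  have hn := NPC.Poly.snd ht
  have h1 := NPC.Poly.pair hu (NPC.Poly.const (α := (List Tok × ℕ) ×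
    (List Unit × Option (List Tok)) × Tok) (none : Option (List Tok)))
  have h2 := NPC.Poly.pair (NPC.Poly.tail hu) (NPC.Poly.const (α := (List Tok × ℕ) ×
    (List Unit × Option (List Tok)) × Tok) (none : Option (List Tok)))
  have h3 := NPC.Poly.pair (NPC.Poly.cons (NPC.Poly.const (α := (List Tok × ℕ) ×
    (List Unit × Option (List Tok)) × Tok) ()) hu) (NPC.Poly.const (α := (List Tok × ℕ) ×
    (List Unit × Option (List Tok)) × Tok) (none : Option (List Tok)))
  have h4 := NPC.Poly.const (α := (List Tok × ℕ) × (List Unit × Option (List Tok)) × Tok)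
    (([], some []) : List Unit × Option (List Tok))
  have c1 := NPC.Poly.decide_and (NPC.Poly.decide_and
    (NPC.Poly.decide_eq hk (NPC.Poly.const 4)) (NPC.Poly.decide_eq (NPC.Poly.succ hn) hi))
    (NPC.Poly.decide_eq hu (NPC.Poly.const []))
  have c2 := NPC.Poly.decide_eq hk (NPC.Poly.const 5)
  have c3 := NPC.Poly.decide_or (NPC.Poly.decide_eq hk (NPC.Poly.const 3))
    (NPC.Poly.decide_or (NPC.Poly.decide_eq hk (NPC.Poly.const 6))
      (NPC.Poly.decide_eq hk (NPC.Poly.const 7)))
  have hA := NPC.Poly.ite c1 h4 (NPC.Poly.ite c2 h2 (NPC.Poly.ite c3 h3 h1))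
  have hB : Poly (fun q : ((List Tok × ℕ) × (List Unit × Option (List Tok)) × Tok) × List Tok =>
      ((q.1.2.1.1, some (q.1.2.2 :: q.2)) : List Unit × Option (List Tok))) :=
    NPC.Poly.pair (hu.comp (NPC.Poly.fst NPC.Poly.id))
      (NPC.Poly.some (NPC.Poly.cons (ht.comp (NPC.Poly.fst NPC.Poly.id))
        (NPC.Poly.snd NPC.Poly.id)))
  refine (NPC.Poly.optCases (h := fun p acc => ((p.2.1.1, some (p.2.2 :: acc)) :
    List Unit × Option (List Tok))) ho hA hB).congr fun p => ?_
  obtain ⟨⟨w, i⟩, ⟨u, o⟩, t⟩ := p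
  cases o <;> rfl

theorem poly_argAt : Poly (fun p : List Tok × ℕ => argAt p.1 p.2) := by
  have hw : Poly (fun p : List Tok × ℕ => p.1.tail) := NPC.Poly.tail (NPC.Poly.fst NPC.Poly.id)
  have h1 : Poly (fun p : List Tok × ℕ => (p.1.tail).foldl (stp p.2)
      (([], none) : List Unit × Option (List Tok))) := by
    refine NPC.Poly.foldl (F := fun (p : List Tok × ℕ) s t => stp p.2 s t) hw
      (NPC.Poly.const _) poly_stp (Polynomial.C 3 * Polynomial.X + Polynomial.C 3) ?_
    intro a k _
    have h2 := sz_foldl_stp a.2 (a.1.tail.take k) ([], none)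
    have h3 := NPC.Poly.sz_take_le a.1.tail k
    have h4 : sz a.1.tail ≤ sz a.1 := by
      cases a.1 with
      | nil => simp
      | cons t w => simp; omega
    have h5 : sz a = sz a.1 + sz a.2 + 1 := sz_pair a.1 a.2
    simp only [sz_pair, sz_list_nil, sz_none] at h2
    simp only [Polynomial.eval_add, Polynomial.eval_mul, Polynomial.eval_C, Polynomial.eval_X]
    change sz ((a.1.tail.take k).foldl (stp a.2) ([], none)) ≤ _
    omega
  have h2 : Poly (fun p : List Tok × ℕ => (scn p.2 p.1.tail).getD []) :=
    (NPC.Poly.optCases (h := fun _ acc => acc) (NPC.Poly.snd h1) (NPC.Poly.const [])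
      (NPC.Poly.snd NPC.Poly.id)).congr fun p => by
        unfold scn
        cases (List.foldl (stp p.2) (([], none) : List Unit × Option (List Tok)) p.1.tail).2 <;> rfl
  exact NPC.Poly.ite (NPC.Poly.decide_eq (NPC.Poly.snd NPC.Poly.id) (NPC.Poly.const 0)) hw
    (NPC.Poly.reverse h2)

/-- a function of the first `k` bits -/
theorem poly_bits (k : ℕ) (g : (Fin k → Bool) → Bool) :
    Poly (fun z : List Bool => g (fun i => z.getD (i : ℕ) false)) := by
  induction k with
  | zero =>
    refine (NPC.Poly.const (g (fun i => i.elim0))).congr fun z => ?_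
    congr 1
    funext i
    exact i.elim0
  | succ k ih =>
    have h0 : Poly (fun z : List Bool => z.head?.getD false) :=
      (NPC.Poly.optCases (h := fun _ b => b) (NPC.Poly.head? (NPC.Poly.id (α := List Bool)))
        (NPC.Poly.const false) (NPC.Poly.snd NPC.Poly.id)).congr fun z => by
          cases z.head? <;> rfl
    have ht : Poly (fun z : List Bool => z.tail) := NPC.Poly.tail NPC.Poly.id
    have h1 := (ih (fun x => g (Fin.cons true x))).comp ht
    have h2 := (ih (fun x => g (Fin.cons false x))).comp ht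
    refine (NPC.Poly.cond h0 h1 h2).congr fun z => ?_
    have h3 : ∀ b : Bool, z.head?.getD false = b →
        (Fin.cons b (fun i : Fin k => z.tail.getD (i : ℕ) false) : Fin (k + 1) → Bool) =
        fun i : Fin (k + 1) => z.getD (i : ℕ) false := by
      intro b hb
      funext i
      refine Fin.cases ?_ (fun i => ?_) i
      · rw [Fin.cons_zero, ← hb]
        cases z <;> rfl
      · rw [Fin.cons_succ, Fin.val_succ]
        cases z <;> simp
    cases hb : z.head?.getD false with
    | true => rw [cond_true, h3 true hb]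
    | false => rw [cond_false, h3 false hb]

/-- arities as a function of the number -/
def KL (𝔅 : Base) : List 𝔅.B → ℕ → ℕ
  | [], _ => 0
  | b :: l, n => if n = 𝔅.idx b then 𝔅.ar b else KL 𝔅 l n

/-- values as a function of the number -/
def EL (𝔅 : Base) : List 𝔅.B → ℕ × List Bool → Bool
  | [], _ => false
  | b :: l, p => if p.1 = 𝔅.idx b then 𝔅.ev b (fun i => p.2.getD (i : ℕ) false) else EL 𝔅 l p

theorem poly_KL (𝔅 : Base) (l : List 𝔅.B) : Poly (fun n => KL 𝔅 l n) := by
  induction l with
  | nil => exact NPC.Poly.const 0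
  | cons b l ih =>
    exact NPC.Poly.ite (NPC.Poly.decide_eq NPC.Poly.id (NPC.Poly.const _)) (NPC.Poly.const _) ih

theorem poly_EL (𝔅 : Base) (l : List 𝔅.B) : Poly (fun p => EL 𝔅 l p) := by
  induction l with
  | nil => exact NPC.Poly.const false
  | cons b l ih =>
    exact NPC.Poly.ite (NPC.Poly.decide_eq (NPC.Poly.fst NPC.Poly.id) (NPC.Poly.const _))
      ((poly_bits _ (𝔅.ev b)).comp (NPC.Poly.snd NPC.Poly.id)) ih

theorem KL_spec (𝔅 : Base) (l : List 𝔅.B) (b : 𝔅.B) (hb : b ∈ l) :
    KL 𝔅 l (𝔅.idx b) = 𝔅.ar b := by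
  induction l with
  | nil => simp at hb
  | cons c l ih =>
    unfold KL
    by_cases h : 𝔅.idx b = 𝔅.idx c
    · rw [if_pos h, 𝔅.inj h]
    · rw [if_neg h]
      rcases List.mem_cons.1 hb with h1 | h1
      · exact absurd (by rw [h1]) h
      · exact ih h1

theorem EL_spec (𝔅 : Base) (l : List 𝔅.B) (b : 𝔅.B) (hb : b ∈ l) (z : List Bool) :
    EL 𝔅 l (𝔅.idx b, z) = 𝔅.ev b (fun i => z.getD (i : ℕ) false) := by
  induction l with
  | nil => simp at hb
  | cons c l ih =>
    unfold EL
    by_cases h : 𝔅.idx b = 𝔅.idx c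
    · have h2 := 𝔅.inj h
      subst h2
      rw [if_pos rfl]
    · rw [if_neg h]
      rcases List.mem_cons.1 hb with h1 | h1
      · exact absurd (by rw [h1]) h
      · exact ih h1

theorem partB : PartB := by
  refine ⟨⟨argAt, poly_argAt, sz_argAt, fun 𝔅 b φ rest i => argAt_spec b φ rest i⟩, ?_⟩
  intro 𝔅
  have := 𝔅.fin
  obtain ⟨l, hl⟩ : ∃ l : List 𝔅.B, ∀ b, b ∈ l := by
    have := Fintype.ofFinite 𝔅.B
    exact ⟨Finset.univ.toList, fun b => by simp⟩
  exact ⟨fun n z => EL 𝔅 l (n, z), fun n => KL 𝔅 l n, poly_EL 𝔅 l, poly_KL 𝔅 l,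
    fun b => ⟨KL_spec 𝔅 l b (hl b), fun z => EL_spec 𝔅 l b (hl b) z⟩⟩

end Pool.Agent.Helper76.HYB
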